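import Mathlib

namespace Pool.Agent.H22.AA

open Polynomial

/-- Integers in a real interval of radius `R` around `c`. -/
lemma card_int_near (c R : ℝ) (hR : 0 ≤ R) :
    (Set.Finite {k : ℤ | |(k : ℝ) - c| ≤ R}) ∧
      (({k : ℤ | |(k : ℝ) - c| ≤ R}.ncard : ℕ) : ℝ) ≤ 2 * R + 1 := by
  have hset : {k : ℤ | |(k : ℝ) - c| ≤ R} = ↑(Finset.Icc ⌈c - R⌉ ⌊c + R⌋) := by
    ext k
    simp only [Set.mem_setOf_eq, Finset.coe_Icc, Set.mem_Icc, Int.ceil_le, Int.le_floor, abs_le]
    constructor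
    · rintro ⟨h1, h2⟩
      constructor <;> linarith
    · rintro ⟨h1, h2⟩
      constructor <;> linarith
  rw [hset]
  refine ⟨Finset.finite_toSet _, ?_⟩
  rw [Set.ncard_coe_finset, Int.card_Icc]
  have h1 : (⌊c + R⌋ : ℝ) ≤ c + R := Int.floor_le _
  have h2 : c - R ≤ (⌈c - R⌉ : ℝ) := Int.le_ceil _
  rcases le_or_gt 0 (⌊c + R⌋ + 1 - ⌈c - R⌉) with h | h
  · have : ((⌊c + R⌋ + 1 - ⌈c - R⌉).toNat : ℝ) = ((⌊c + R⌋ + 1 - ⌈c - R⌉ : ℤ) : ℝ) := by
      exact_mod_cast congrArg (Int.cast : ℤ → ℝ) (Int.toNat_of_nonneg h)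
    rw [this]
    push_cast
    linarith
  · rw [Int.toNat_of_nonpos h.le]
    push_cast
    linarith

/-- (3c) A polynomial of degree `n ≥ 1` over `ℤ` takes values of absolute value at most `H` at no
more than `n (2 H^(1/n) + 1)` integers. -/
theorem card_small_values (n : ℕ) (hn : 1 ≤ n) (p : ℤ[X]) (hp : p.natDegree = n) (H : ℝ)
    (hH : 1 ≤ H) :
    (Set.Finite {k : ℤ | |((p.eval k : ℤ) : ℝ)| ≤ H}) ∧
      (({k : ℤ | |((p.eval k : ℤ) : ℝ)| ≤ H}.ncard : ℕ) : ℝ) ≤
        n * (2 * H ^ ((1 : ℝ) / n) + 1) := by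
  classical
  set R : ℝ := H ^ ((1 : ℝ) / n) with hR
  have hR0 : 0 ≤ R := by positivity
  have hRn : R ^ n = H := by
    rw [hR, ← Real.rpow_natCast, ← Real.rpow_mul (by linarith)]
    rw [one_div_mul_cancel (by positivity), Real.rpow_one]
  set q : ℂ[X] := p.map (Int.castRingHom ℂ) with hq
  have hinj : Function.Injective (Int.castRingHom ℂ) := by
    intro a b h
    simpa using h
  have hqd : q.natDegree = n := by
    rw [hq, natDegree_map_eq_of_injective hinj, hp]
  have hsplit : q.Splits := IsAlgClosed.splits q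
  have hcard : Multiset.card q.roots = n := by
    rw [← hqd]
    exact hsplit.natDegree_eq_card_roots.symm
  have hlc : (1 : ℝ) ≤ ‖q.leadingCoeff‖ := by
    rw [hq, leadingCoeff_map_of_injective hinj]
    have h0 : p.leadingCoeff ≠ 0 := by
      intro h
      rw [leadingCoeff_eq_zero] at h
      rw [h] at hp
      simp at hp
      omega
    have : (1 : ℤ) ≤ |p.leadingCoeff| := Int.one_le_abs h0
    have h2 : ‖(Int.castRingHom ℂ) p.leadingCoeff‖ = ((|p.leadingCoeff| : ℤ) : ℝ) := by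
      simp
    rw [h2]
    exact_mod_cast this
  have key : {k : ℤ | |((p.eval k : ℤ) : ℝ)| ≤ H} ⊆
      ⋃ z ∈ q.roots.toFinset, {k : ℤ | |(k : ℝ) - z.re| ≤ R} := by
    intro k hk
    simp only [Set.mem_setOf_eq] at hk
    by_contra hcon
    simp only [Set.mem_iUnion, Set.mem_setOf_eq, Multiset.mem_toFinset, exists_prop, not_exists,
      not_and, not_le] at hcon
    have heval : ‖q.eval (k : ℂ)‖ = |((p.eval k : ℤ) : ℝ)| := by
      have : q.eval (k : ℂ) = ((p.eval k : ℤ) : ℂ) := by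
        rw [hq, eval_map, eval₂_at_intCast]
        simp
      rw [this, Complex.norm_intCast]
    have hfac : q.eval (k : ℂ) = q.leadingCoeff * (q.roots.map (fun z => (k : ℂ) - z)).prod := by
      conv_lhs => rw [hsplit.eq_prod_roots]
      rw [eval_mul, eval_C, eval_multiset_prod, Multiset.map_map]
      simp
    have hprod : ∀ s : Multiset ℂ, (∀ z ∈ s, R < |(k : ℝ) - z.re|) →
        R ^ (Multiset.card s) ≤ ‖(s.map (fun z => (k : ℂ) - z)).prod‖ ∧
        (s ≠ 0 → R ^ (Multiset.card s) < ‖(s.map (fun z => (k : ℂ) - z)).prod‖) := by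
      intro s
      induction s using Multiset.induction_on with
      | empty => intro _; simp
      | cons a s ih =>
        intro hs
        have h1 := ih (fun z hz => hs z (Multiset.mem_cons_of_mem hz))
        have h2 : R < ‖(k : ℂ) - a‖ := by
          refine lt_of_lt_of_le (hs a (Multiset.mem_cons_self a s)) ?_
          have := Complex.abs_re_le_norm ((k : ℂ) - a)
          simpa using this
        have h3 : R ^ (Multiset.card (a ::ₘ s)) <
            ‖((a ::ₘ s).map (fun z => (k : ℂ) - z)).prod‖ := by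
          rw [Multiset.card_cons, Multiset.map_cons, Multiset.prod_cons, norm_mul, pow_succ,
            mul_comm (R ^ _) R]
          have h4 : 0 < ‖(s.map (fun z => (k : ℂ) - z)).prod‖ := by
            rcases eq_or_ne s 0 with h | h
            · subst h; simp
            · exact lt_of_le_of_lt (by positivity) (h1.2 h)
          calc R * R ^ (Multiset.card s) ≤ R * ‖(s.map (fun z => (k : ℂ) - z)).prod‖ :=
                mul_le_mul_of_nonneg_left h1.1 hR0
            _ < ‖(k : ℂ) - a‖ * ‖(s.map (fun z => (k : ℂ) - z)).prod‖ :=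
                mul_lt_mul_of_pos_right h2 h4
        exact ⟨h3.le, fun _ => h3⟩
    have hne : q.roots ≠ 0 := by
      intro h
      rw [h] at hcard
      simp at hcard
      omega
    have h5 := (hprod q.roots (fun z hz => hcon z hz)).2 hne
    rw [hcard, hRn] at h5
    have h6 : H < ‖q.eval (k : ℂ)‖ := by
      rw [hfac, norm_mul]
      calc H < ‖(q.roots.map (fun z => (k : ℂ) - z)).prod‖ := h5
        _ ≤ ‖q.leadingCoeff‖ * ‖(q.roots.map (fun z => (k : ℂ) - z)).prod‖ := by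
            nlinarith [norm_nonneg ((q.roots.map (fun z => (k : ℂ) - z)).prod)]
    rw [heval] at h6
    linarith
  have hfin : (⋃ z ∈ q.roots.toFinset, {k : ℤ | |(k : ℝ) - z.re| ≤ R}).Finite :=
    Set.Finite.biUnion (Finset.finite_toSet _) (fun z _ => (card_int_near z.re R hR0).1)
  refine ⟨hfin.subset key, ?_⟩
  have h7 : ({k : ℤ | |((p.eval k : ℤ) : ℝ)| ≤ H}.ncard : ℝ) ≤
      ((⋃ z ∈ q.roots.toFinset, {k : ℤ | |(k : ℝ) - z.re| ≤ R}).ncard : ℝ) := by
    exact_mod_cast Set.ncard_le_ncard key hfin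
  have h8 : (⋃ z ∈ q.roots.toFinset, {k : ℤ | |(k : ℝ) - z.re| ≤ R}).ncard ≤
      ∑ z ∈ q.roots.toFinset, ({k : ℤ | |(k : ℝ) - z.re| ≤ R}).ncard :=
    Finset.set_ncard_biUnion_le _ _
  have h9 : ((∑ z ∈ q.roots.toFinset, ({k : ℤ | |(k : ℝ) - z.re| ≤ R}).ncard : ℕ) : ℝ) ≤
      ∑ _z ∈ q.roots.toFinset, (2 * R + 1) := by
    push_cast
    exact Finset.sum_le_sum (fun z _ => (card_int_near z.re R hR0).2)
  have h10 : (q.roots.toFinset.card : ℝ) ≤ n := by
    have := Multiset.toFinset_card_le q.roots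
    rw [hcard] at this
    exact_mod_cast this
  calc ({k : ℤ | |((p.eval k : ℤ) : ℝ)| ≤ H}.ncard : ℝ)
      ≤ ((⋃ z ∈ q.roots.toFinset, {k : ℤ | |(k : ℝ) - z.re| ≤ R}).ncard : ℝ) := h7
    _ ≤ ((∑ z ∈ q.roots.toFinset, ({k : ℤ | |(k : ℝ) - z.re| ≤ R}).ncard : ℕ) : ℝ) := by
        exact_mod_cast h8
    _ ≤ ∑ _z ∈ q.roots.toFinset, (2 * R + 1) := h9
    _ = q.roots.toFinset.card * (2 * R + 1) := by rw [Finset.sum_const, nsmul_eq_mul]
    _ ≤ n * (2 * R + 1) := mul_le_mul_of_nonneg_right h10 (by positivity)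

end Pool.Agent.H22.AA
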